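import Pool.Agent.P.MP_312c66_co.Gen

/-! Singly exponential upper bound for the minimum degree quasi-Ramsey numbers with densities
`1, ε / (q - 1), …, ε / (q - 1)`, for all `r`, `q` and all `ε ≤ (q - 1) r! / r ^ r`. -/

namespace Pool.Agent.Results.MP_312c66_co.AllUniformities

open Finset

theorem result (r q : ℕ) (hr : 2 ≤ r) (hq : 2 ≤ q) :
    ∃ C : ℝ, ∀ ε : ℝ, ε ≤ ((q : ℝ) - 1) * ((r.factorial : ℝ) / (r : ℝ) ^ r) →
      ∀ k : ℕ, 2 ≤ k → ∀ n : ℕ, Real.exp (C * (k : ℝ) ^ (r - 1) * Real.log k) ≤ n →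
        ∀ φ : Finset (Fin n) → Fin q, ∃ (S : Finset (Fin n)) (j : Fin q), k ≤ S.card ∧ ∀ v ∈ S,
          (if j.val = 0 then (1 : ℝ) else ε / ((q : ℝ) - 1)) * ((S.card - 1).choose (r - 1) : ℝ)
            ≤ (((S.powersetCard r).filter fun e => v ∈ e ∧ φ e = j).card : ℝ) := by
  obtain ⟨s, rfl⟩ : ∃ s, r = s + 1 := ⟨r - 1, by omega⟩
  refine ⟨3 * (((2 * (s + 1) + q + 4) * 2 ^ s + 1 : ℕ) : ℝ), fun ε hε k hk n hn φ => ?_⟩
  simp only [Nat.add_sub_cancel] at hn ⊢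
  obtain ⟨L, hL⟩ : ∃ L, L = Nat.log 2 k + 1 := ⟨_, rfl⟩
  have hk0 : (0 : ℝ) < k := by exact_mod_cast (by omega : 0 < k)
  have hL1 : k ≤ 2 ^ L := hL ▸ (Nat.lt_pow_succ_log_self (b := 2) (by norm_num) k).le
  have hL2 : (L : ℝ) ≤ 3 * Real.log k := by
    have h1 : (2 : ℝ) ^ Nat.log 2 k ≤ k := by exact_mod_cast Nat.pow_log_le_self 2 (by omega)
    have h2 := Real.log_le_log (by positivity) h1
    rw [Real.log_pow] at h2
    have h3 : Real.log 2 ≤ Real.log k := Real.log_le_log two_pos (by exact_mod_cast hk)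
    have h4 := Real.log_two_gt_d9
    have h5 : (0 : ℝ) ≤ Nat.log 2 k := Nat.cast_nonneg _
    rw [hL]
    push_cast
    nlinarith
  have hex : ((s + 1) * (L + 1) + q + 4) * (k + 1) ^ s + L
      ≤ ((2 * (s + 1) + q + 4) * 2 ^ s + 1) * k ^ s * L := by
    have h1 : (k + 1) ^ s ≤ 2 ^ s * k ^ s := by
      rw [← mul_pow]; exact Nat.pow_le_pow_left (by omega) s
    have h2 : (s + 1) * (L + 1) + q + 4 ≤ (2 * (s + 1) + q + 4) * L := by
      obtain ⟨l, rfl⟩ : ∃ l, L = l + 1 := ⟨_, hL⟩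
      nlinarith [Nat.zero_le (s * l), Nat.zero_le (q * l)]
    have h3 : L ≤ k ^ s * L := Nat.le_mul_of_pos_left _ (Nat.pow_pos (by omega))
    calc _ ≤ (2 * (s + 1) + q + 4) * L * (2 ^ s * k ^ s) + k ^ s * L :=
          Nat.add_le_add (Nat.mul_le_mul h2 h1) h3
      _ = _ := by ring
  have hn2 : 2 ^ (((s + 1) * (L + 1) + q + 4) * (k + 1) ^ s + L) ≤ n := by
    refine (Nat.pow_le_pow_right two_pos hex).trans ?_
    generalize (2 * (s + 1) + q + 4) * 2 ^ s + 1 = c at hn ⊢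
    have h2 : (2 : ℝ) ≤ Real.exp 1 := by linarith [Real.add_one_le_exp (1 : ℝ)]
    have h3 : (2 : ℝ) ^ (c * k ^ s * L) ≤ Real.exp ((c * k ^ s * L : ℕ) : ℝ) := by
      rw [← Real.exp_one_pow]
      exact pow_le_pow_left₀ zero_le_two h2 _
    have h4 : ((c * k ^ s * L : ℕ) : ℝ) ≤ 3 * c * (k : ℝ) ^ s * Real.log k := by
      push_cast
      have h5 : (0 : ℝ) ≤ c * (k : ℝ) ^ s := mul_nonneg (Nat.cast_nonneg _) (pow_pos hk0 _).le
      linarith [mul_le_mul_of_nonneg_left hL2 h5]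
    exact_mod_cast h3.trans ((Real.exp_le_exp.2 h4).trans hn)
  rcases Pool.Agent.P.MP_312c66_co.dichotomyN (by omega) hL1 hn2 φ ⟨0, by omega⟩ with
    ⟨S, hS, hall⟩ | ⟨S, j, hj, hS1, hS2, hS3⟩
  · refine ⟨S, ⟨0, by omega⟩, hS.ge, fun v hv => ?_⟩
    have h1 := card_filter_powersetCard_subset {v} S (s + 1) (singleton_subset_iff.2 hv)
      (by rw [card_singleton]; omega)
    rw [card_singleton, Nat.add_sub_cancel] at h1
    rw [if_pos rfl, one_mul, ← h1, Nat.cast_le]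
    exact card_le_card fun e he => mem_filter.2 ⟨(mem_filter.1 he).1,
      singleton_subset_iff.1 (mem_filter.1 he).2, hall e (mem_filter.1 he).1⟩
  · refine ⟨S, j, hS1, fun v hv => ?_⟩
    have hq1 : (0 : ℝ) < (q : ℝ) - 1 := by
      have : (2 : ℝ) ≤ q := by exact_mod_cast hq
      linarith
    have h1 : ε / ((q : ℝ) - 1) ≤ ((s + 1).factorial : ℝ) / ((s + 1 : ℕ) : ℝ) ^ (s + 1) := by
      rw [div_le_iff₀ hq1, mul_comm]; exact hε
    have h2 : ((S.card - 1).choose s : ℝ) ≤ (((s + 1 : ℕ) : ℝ) * k) ^ s / (s.factorial : ℝ) := by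
      refine (Nat.choose_le_pow_div s _).trans (div_le_div_of_nonneg_right
        (pow_le_pow_left₀ (Nat.cast_nonneg _) ?_ _) (Nat.cast_nonneg _))
      exact_mod_cast (Nat.sub_le _ _).trans hS2
    have h3 : ((s + 1).factorial : ℝ) / ((s + 1 : ℕ) : ℝ) ^ (s + 1)
        * ((((s + 1 : ℕ) : ℝ) * k) ^ s / (s.factorial : ℝ)) = (k : ℝ) ^ s := by
      have : (s.factorial : ℝ) ≠ 0 := Nat.cast_ne_zero.2 s.factorial_ne_zero
      have : ((s + 1 : ℕ) : ℝ) ≠ 0 := Nat.cast_ne_zero.2 s.succ_ne_zero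
      rw [Nat.factorial_succ, Nat.cast_mul, mul_pow, pow_succ]
      field_simp
    rw [if_neg fun h => hj (Fin.ext h)]
    refine (mul_le_mul h1 h2 (Nat.cast_nonneg _)
      (div_nonneg (Nat.cast_nonneg _) (pow_nonneg (Nat.cast_nonneg _) _))).trans ?_
    rw [h3]
    exact_mod_cast (hS3 v hv).trans (card_le_card fun e he =>
      mem_filter.2 ⟨(mem_filter.1 he).1, (mem_filter.1 he).2⟩)

end Pool.Agent.Results.MP_312c66_co.AllUniformities
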